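import Mathlib
import Pool.Agent.W42.RG.Defs2

set_option autoImplicit false
set_option linter.unusedSectionVars false
set_option linter.unusedVariables false

/-! Project LY, part RB: the central step. -/

namespace Pool.Agent.W637.LY

open Finset Filter Topology MeasureTheory Pool.Agent.W42.RN Pool.Agent.W42.RL Pool.Agent.W42.RG

section koop

variable {X : Type} [MeasurableSpace X] {μ : Measure X} [IsProbabilityMeasure μ] {Z : ℂ → X → X}

/-- a measure preserving action of the plane on the measure algebra -/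
structure PA (μ : Measure X) (Z : ℂ → X → X) : Prop where
  mp : ∀ ζ, MeasurePreserving (Z ζ) μ μ
  zero : Same μ (Z 0) id
  add : ∀ ζ ζ', Same μ (Z (ζ + ζ')) (Z ζ ∘ Z ζ')
  cont : ∀ f : X → ℂ, Bd f → ∀ ζ₀,
    Tendsto (fun ζ => ∫ p, ‖f (Z ζ p) - f (Z ζ₀ p)‖ ∂μ) (𝓝 ζ₀) (𝓝 0)

/-- Koopman operators -/
noncomputable def KZ (hz : PA μ Z) (ζ : ℂ) : Lp ℂ 2 μ →ₗᵢ[ℂ] Lp ℂ 2 μ :=
  Lp.compMeasurePreservingₗᵢ ℂ (Z ζ) (hz.mp ζ)

theorem KZ_coe (hz : PA μ Z) (ζ : ℂ) (g : Lp ℂ 2 μ) : KZ hz ζ g =ᵐ[μ] fun p => g (Z ζ p) :=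
  Lp.coeFn_compMeasurePreserving g (hz.mp ζ)

theorem KZ_add (hz : PA μ Z) (s u : ℂ) (g : Lp ℂ 2 μ) : KZ hz s (KZ hz u g) = KZ hz (s + u) g := by
  apply Lp.ext
  have h1 := KZ_coe hz s (KZ hz u g)
  have h2 := (hz.mp s).quasiMeasurePreserving.ae_eq_comp (KZ_coe hz u g)
  have h3 := KZ_coe hz (s + u) g
  have hgm : Measurable (g : X → ℂ) := (Lp.stronglyMeasurable g).measurable
  have h4 := (hz.add u s).fn hgm
  filter_upwards [h1, h2, h3, h4] with p g1 g2 g3 g4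
  rw [g1, g3]
  simp only [Function.comp_apply] at g2 g4
  rw [g2, add_comm s u, g4]

theorem KZ_zero (hz : PA μ Z) (g : Lp ℂ 2 μ) : KZ hz 0 g = g := by
  apply Lp.ext
  have hgm : Measurable (g : X → ℂ) := (Lp.stronglyMeasurable g).measurable
  filter_upwards [KZ_coe hz 0 g, hz.zero.fn hgm] with p g1 g2
  rw [g1, g2]
  rfl

theorem KZ_toL (hz : PA μ Z) {f : X → ℂ} (hf : Bd f) {ζ c : ℂ}
    (h : (fun p => f (Z ζ p)) =ᵐ[μ] fun p => c * f p) :
    KZ hz ζ (toL hf) = c • (toL hf : Lp ℂ 2 μ) := by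
  apply Lp.ext
  have h2 := (hz.mp ζ).quasiMeasurePreserving.ae_eq_comp (toL_coe (μ := μ) hf)
  filter_upwards [KZ_coe hz ζ (toL hf), h, h2, Lp.coeFn_smul c (toL hf : Lp ℂ 2 μ),
    toL_coe (μ := μ) hf] with p g1 g2 g3 g4 g5
  rw [g1, g4, Pi.smul_apply, g5, smul_eq_mul]
  simp only [Function.comp_apply] at g3
  rw [g3]; exact g2

theorem KZ_surj (hz : PA μ Z) (ζ : ℂ) : Function.Surjective (KZ hz ζ) := by
  intro w
  refine ⟨KZ hz (-ζ) w, ?_⟩
  rw [KZ_add, add_neg_cancel, KZ_zero]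

/-- Koopman operators as unitary operators -/
noncomputable def KE (hz : PA μ Z) (ζ : ℂ) : Lp ℂ 2 μ ≃ₗᵢ[ℂ] Lp ℂ 2 μ :=
  LinearIsometryEquiv.ofSurjective (KZ hz ζ) (KZ_surj hz ζ)

theorem KE_apply (hz : PA μ Z) (ζ : ℂ) (w : Lp ℂ 2 μ) : KE hz ζ w = KZ hz ζ w := by
  unfold KE
  rw [LinearIsometryEquiv.coe_ofSurjective]

/-- truncation of joint eigenvectors -/
theorem truncZ (hz : PA μ Z) (v : Lp ℂ 2 μ) (χ : ℂ → ℂ) (hχ : ∀ u, ‖χ u‖ = 1)
    (h : ∀ f : X → ℂ, ∀ hf : Bd f, (∀ u, (fun p => f (Z u p)) =ᵐ[μ] fun p => χ u * f p) →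
      inner ℂ v (toL hf) = 0)
    (g : Lp ℂ 2 μ) (hg : ∀ u, KZ hz u g = χ u • g) : inner ℂ v g = 0 := by
  classical
  have hgm : Measurable (g : X → ℂ) := (Lp.stronglyMeasurable g).measurable
  set f : ℕ → X → ℂ := fun M p => if ‖g p‖ ≤ M then g p else 0 with hf
  have hfB : ∀ M, Bd (f M) := by
    intro M
    refine ⟨Measurable.ite (measurableSet_le hgm.norm measurable_const) hgm measurable_const, M, fun p => ?_⟩
    simp only [hf]
    split_ifs with h1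
    · exact h1
    · simp
  have hz0 : ∀ M : ℕ, ∫ p, f M p * (starRingEnd ℂ) (v p) ∂μ = 0 := by
    intro M
    have h1 := h (f M) (hfB M) (by
      intro u
      have h2 : (fun p => g (Z u p)) =ᵐ[μ] fun p => χ u * g p := by
        have h3 := KZ_coe hz u g
        rw [hg u] at h3
        filter_upwards [h3, Lp.coeFn_smul (χ u) g] with p g1 g2
        rw [← g1, g2]; rfl
      filter_upwards [h2] with p g1
      simp only [hf]
      rw [g1, norm_mul, hχ u, one_mul]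
      split_ifs <;> simp)
    rw [inner_int] at h1
    rw [← h1]
    apply integral_congr_ae
    filter_upwards [toL_coe (μ := μ) (hfB M)] with p g1
    rw [g1]
  have hlim : Tendsto (fun M : ℕ => ∫ p, f M p * (starRingEnd ℂ) (v p) ∂μ) atTop
      (𝓝 (∫ p, g p * (starRingEnd ℂ) (v p) ∂μ)) := by
    have hint : Integrable (fun p => g p * (starRingEnd ℂ) (v p)) μ := by
      have := L2.integrable_inner (𝕜 := ℂ) v g
      refine this.congr (Eventually.of_forall fun p => ?_)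
      rfl
    apply tendsto_integral_of_dominated_convergence (fun p => ‖g p * (starRingEnd ℂ) (v p)‖)
    · intro M
      exact ((hfB M).meas.mul (Complex.continuous_conj.measurable.comp
        (Lp.stronglyMeasurable v).measurable)).aestronglyMeasurable
    · exact hint.norm
    · intro M
      refine Eventually.of_forall fun p => ?_
      simp only [hf]
      split_ifs
      · exact le_rfl
      · simp only [zero_mul, norm_zero]; exact norm_nonneg _
    · refine Eventually.of_forall fun p => ?_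
      obtain ⟨M0, hM0⟩ := exists_nat_ge ‖g p‖
      refine tendsto_const_nhds.congr' ?_
      filter_upwards [eventually_ge_atTop M0] with M hM
      simp only [hf]
      rw [if_pos (hM0.trans (by exact_mod_cast hM))]
  simp_rw [hz0] at hlim
  rw [inner_int]
  exact (tendsto_nhds_unique hlim tendsto_const_nhds)

/-- bounded joint eigenfunctions -/
def JE (μ : Measure X) (Z : ℂ → X → X) : Set (X → ℂ) :=
  {f | Bd f ∧ ∃ χ : ℂ → ℂ, (∀ ζ, ‖χ ζ‖ = 1) ∧ ∀ ζ, (fun p => f (Z ζ p)) =ᵐ[μ] fun p => χ ζ * f p}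

theorem one_mem_JE : (fun _ => 1 : X → ℂ) ∈ JE μ Z :=
  ⟨Bd.const 1, fun _ => 1, fun _ => by simp, fun u => Eventually.of_forall fun p => by simp⟩

/-- vectors orthogonal to the joint eigenfunctions are orthogonal to the vectors which lie in the
closed spans of the eigenfunctions of the directions `1` and `i` -/
theorem orthZ (hJ : S_JOINT) (hz : PA μ Z) (v G : Lp ℂ 2 μ)
    (hv : ∀ f : X → ℂ, ∀ hf : f ∈ JE μ Z, inner ℂ v (toL hf.1) = 0)
    (hG : ∀ η : ℂ, G ∈ (Submodule.span ℂ {w : Lp ℂ 2 μ |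
      ∃ (g : X → ℂ) (hg : g ∈ EigF μ (fun u : ℝ => Z (u • η))),
        w = toL hg.1}).topologicalClosure) : inner ℂ v G = 0 := by
  have hsub : ∀ η : ℂ, {w : Lp ℂ 2 μ | ∃ (g : X → ℂ) (hg : g ∈ EigF μ (fun u : ℝ => Z (u • η))),
        w = toL hg.1} ⊆ {w : Lp ℂ 2 μ | ∀ u : ℝ, ∃ c : ℂ, ‖c‖ = 1 ∧ KE hz (u • η) w = c • w} := by
    rintro η _ ⟨g, hg, rfl⟩ u
    obtain ⟨hgB, χ, hχ, hev⟩ := hg
    refine ⟨χ u, hχ u, ?_⟩
    rw [KE_apply]
    exact KZ_toL hz hgB (hev u)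
  have h1 := hJ (Lp ℂ 2 μ) ℝ ℝ (fun u => KE hz (u • (1 : ℂ))) (fun u => KE hz (u • Complex.I))
    (by
      intro i k w
      simp only [KE_apply]
      rw [KZ_add, KZ_add, add_comm]) G
    (Submodule.topologicalClosure_mono (Submodule.span_mono (hsub 1)) (hG 1))
    (Submodule.topologicalClosure_mono (Submodule.span_mono (hsub Complex.I)) (hG Complex.I))
  -- `v` is orthogonal to the joint eigenvectors
  have h2 : ∀ w ∈ {w : Lp ℂ 2 μ | (∀ u : ℝ, ∃ c : ℂ, ‖c‖ = 1 ∧ KE hz (u • (1 : ℂ)) w = c • w) ∧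
      ∀ u : ℝ, ∃ c : ℂ, ‖c‖ = 1 ∧ KE hz (u • Complex.I) w = c • w}, inner ℂ v w = 0 := by
    rintro w ⟨ha, hb⟩
    choose α hα1 hα2 using ha
    choose β hβ1 hβ2 using hb
    refine truncZ hz v (fun ζ => β ζ.im * α ζ.re) (fun ζ => by
      rw [norm_mul, hβ1, hα1, one_mul]) ?_ w ?_
    · intro f hf hev
      exact hv f ⟨hf, fun ζ => β ζ.im * α ζ.re, fun ζ => by rw [norm_mul, hβ1, hα1, one_mul], hev⟩
    · intro ζ
      have e : ζ = ζ.re • (1 : ℂ) + ζ.im • Complex.I := by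
        apply Complex.ext <;> simp
      have h3 : KZ hz ζ w = KZ hz (ζ.re • (1 : ℂ)) (KZ hz (ζ.im • Complex.I) w) := by
        rw [KZ_add, ← e]
      rw [h3, ← KE_apply, ← KE_apply, hβ2, map_smul, hα2, smul_smul]
  have h4 : Submodule.span ℂ {w : Lp ℂ 2 μ | (∀ u : ℝ, ∃ c : ℂ, ‖c‖ = 1 ∧
      KE hz (u • (1 : ℂ)) w = c • w) ∧ ∀ u : ℝ, ∃ c : ℂ, ‖c‖ = 1 ∧
      KE hz (u • Complex.I) w = c • w} ≤ (Submodule.span ℂ {v})ᗮ := by
    rw [Submodule.span_le]
    intro w hw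
    rw [SetLike.mem_coe, Submodule.mem_orthogonal_singleton_iff_inner_right]
    exact h2 w hw
  have h5 := Submodule.topologicalClosure_minimal _ h4 (Submodule.isClosed_orthogonal _)
  exact Submodule.mem_orthogonal_singleton_iff_inner_right.1 (h5 h1)

theorem norm_toL_one : ‖(toL (Bd.const (X := X) 1) : Lp ℂ 2 μ)‖ ≤ 1 := by
  have h4 := norm_sq_int (toL (Bd.const (X := X) 1) : Lp ℂ 2 μ)
  have h5 : ∫ p, ‖(toL (Bd.const (X := X) 1) : Lp ℂ 2 μ) p‖ ^ 2 ∂μ = 1 := by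
    have : (fun p => ‖(toL (Bd.const (X := X) 1) : Lp ℂ 2 μ) p‖ ^ 2) =ᵐ[μ] fun _ => 1 := by
      filter_upwards [toL_coe (μ := μ) (Bd.const (X := X) 1)] with p g1
      rw [g1]; simp
    rw [integral_congr_ae this]; simp
  rw [h5] at h4
  nlinarith [norm_nonneg (toL (Bd.const (X := X) 1) : Lp ℂ 2 μ)]

/-- approximation by combinations of joint eigenfunctions -/
theorem kronZ {f : X → ℂ} (hf : Bd f) (κ : ℝ) (hκ0 : 0 < κ) :
    ∃ g ∈ Submodule.span ℂ (JE μ Z), ∃ hg : Bd g, ∃ v k : Lp ℂ 2 μ,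
      (toL (hf.sub hg) : Lp ℂ 2 μ) = v + k ∧ ‖k‖ < κ ∧
      ∀ f : X → ℂ, ∀ hf : f ∈ JE μ Z, inner ℂ v (toL hf.1) = 0 := by
  set E2 : Set (Lp ℂ 2 μ) := {w | ∃ f ∈ JE μ Z, w =ᵐ[μ] f} with hE2
  set W : Submodule ℂ (Lp ℂ 2 μ) := (Submodule.span ℂ E2).topologicalClosure with hW
  have : CompleteSpace W := (Submodule.isClosed_topologicalClosure _).completeSpace_coe
  obtain ⟨y, hy, v, hv, hyv⟩ := W.exists_add_mem_mem_orthogonal (toL hf)
  have hvE : ∀ f : X → ℂ, ∀ hf : f ∈ JE μ Z, inner ℂ v (toL hf.1) = 0 := by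
    intro f hf
    have h1 : (toL hf.1 : Lp ℂ 2 μ) ∈ W :=
      Submodule.le_topologicalClosure _ (Submodule.subset_span ⟨f, hf, toL_coe _⟩)
    have h2 := (Submodule.mem_orthogonal W v).1 hv _ h1
    rw [← inner_conj_symm, h2, map_zero]
  obtain ⟨g', hg', hgd⟩ : ∃ g' ∈ Submodule.span ℂ E2, ‖y - g'‖ < κ := by
    have h1 : y ∈ closure ((Submodule.span ℂ E2 : Submodule ℂ (Lp ℂ 2 μ)) : Set (Lp ℂ 2 μ)) := hy
    obtain ⟨g', h2, h3⟩ := Metric.mem_closure_iff.1 h1 κ hκ0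
    exact ⟨g', h2, by rwa [dist_eq_norm] at h3⟩
  obtain ⟨g, hg, hgB, hgg⟩ : ∃ g ∈ Submodule.span ℂ (JE μ Z), Bd g ∧ g' =ᵐ[μ] g := by
    clear hgd
    induction hg' using Submodule.span_induction with
    | mem w hw =>
      obtain ⟨f, hf, h1⟩ := hw
      exact ⟨f, Submodule.subset_span hf, hf.1, h1⟩
    | zero => exact ⟨0, Submodule.zero_mem _, Bd.const 0, Lp.coeFn_zero _ _ _⟩
    | add a b _ _ ha hb =>
      obtain ⟨a', h1, h2, h3⟩ := ha
      obtain ⟨b', g1, g2, g3⟩ := hb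
      exact ⟨a' + b', Submodule.add_mem _ h1 g1, h2.add g2, (Lp.coeFn_add a b).trans (h3.add g3)⟩
    | smul c a _ ha =>
      obtain ⟨a', h1, h2, h3⟩ := ha
      exact ⟨c • a', Submodule.smul_mem _ c h1, h2.smul c, (Lp.coeFn_smul c a).trans (h3.const_smul c)⟩
  have hfg : Bd (f - g) := hf.sub hgB
  refine ⟨g, hg, hgB, v, y - g', ?_, hgd, hvE⟩
  have h1 : (toL hfg : Lp ℂ 2 μ) = toL hf - g' := by
    apply Lp.ext
    filter_upwards [toL_coe (μ := μ) hfg, Lp.coeFn_sub (toL hf : Lp ℂ 2 μ) g', toL_coe (μ := μ) hf, hgg]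
      with p g1 g2 g3 g4
    rw [g1, g2, Pi.sub_apply, Pi.sub_apply, g3, g4]
  rw [h1, hyv]
  abel

/-! ### characters -/

theorem char_add (hz : PA μ Z) {f : X → ℂ} (hf : Bd f) (hne : ¬ f =ᵐ[μ] fun _ => 0) {χ : ℂ → ℂ}
    (hev : ∀ ζ, (fun p => f (Z ζ p)) =ᵐ[μ] fun p => χ ζ * f p) (ζ ζ' : ℂ) :
    χ (ζ + ζ') = χ ζ * χ ζ' := by
  by_contra hcon
  apply hne
  have h1 := (hz.add ζ ζ').fn hf.meas
  have h2 := (hz.mp ζ').quasiMeasurePreserving.ae_eq_comp (hev ζ)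
  filter_upwards [h1, h2, hev (ζ + ζ'), hev ζ'] with p g1 g2 g3 g4
  simp only [Function.comp_apply] at g1 g2
  rw [g3, g2, g4] at g1
  have h3 : (χ (ζ + ζ') - χ ζ * χ ζ') * f p = 0 := by linear_combination g1
  rcases mul_eq_zero.1 h3 with h | h
  · exact absurd (sub_eq_zero.1 h) hcon
  · exact h

theorem char_cont (hz : PA μ Z) {f : X → ℂ} (hf : Bd f) (hne : ¬ f =ᵐ[μ] fun _ => 0) {χ : ℂ → ℂ}
    (hev : ∀ ζ, (fun p => f (Z ζ p)) =ᵐ[μ] fun p => χ ζ * f p) : Continuous χ := by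
  set I : ℂ := ∫ p, f p * (starRingEnd ℂ) (f p) ∂μ with hI
  have hI0 : I ≠ 0 := by
    intro h0
    apply hne
    have e : ∀ p, f p * (starRingEnd ℂ) (f p) = ((‖f p‖ ^ 2 : ℝ) : ℂ) := by
      intro p
      rw [Complex.mul_conj']
      push_cast; rfl
    have h1 : ((∫ p, ‖f p‖ ^ 2 ∂μ : ℝ) : ℂ) = 0 := by
      rw [← integral_complex_ofReal]
      simp_rw [← e]
      exact h0
    have h2 : ∫ p, ‖f p‖ ^ 2 ∂μ = 0 := by exact_mod_cast h1
    have hint : Integrable (fun p => ‖f p‖ ^ 2) μ := by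
      have := (hf.mul hf).int (μ := μ)
      refine this.norm.congr (Eventually.of_forall fun p => ?_)
      simp only [norm_mul]; ring
    have h3 := (integral_eq_zero_iff_of_nonneg (fun p => by positivity) hint).1 h2
    filter_upwards [h3] with p hp
    have : ‖f p‖ ^ 2 = 0 := hp
    exact norm_eq_zero.1 (pow_eq_zero_iff (by norm_num)|>.1 this)
  have hφ : Continuous fun ζ => ∫ p, f (Z ζ p) * (starRingEnd ℂ) (f p) ∂μ := by
    rw [continuous_iff_continuousAt]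
    intro ζ₀
    rw [ContinuousAt, tendsto_iff_norm_sub_tendsto_zero]
    obtain ⟨C, hC⟩ := hf.bdd
    have h1 := (hz.cont f hf ζ₀).const_mul |C|
    rw [mul_zero] at h1
    refine squeeze_zero (fun _ => norm_nonneg _) (fun ζ => ?_) h1
    have b1 : Bd fun p => f (Z ζ p) := hf.comp (hz.mp _).measurable
    have b2 : Bd fun p => f (Z ζ₀ p) := hf.comp (hz.mp _).measurable
    rw [← integral_sub (b1.mul hf.conj).int (b2.mul hf.conj).int, ← integral_const_mul]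
    refine (norm_integral_le_integral_norm _).trans ?_
    have b3 : Bd (fun p => f (Z ζ p) * (starRingEnd ℂ) (f p) - f (Z ζ₀ p) * (starRingEnd ℂ) (f p)) :=
      (b1.mul hf.conj).sub (b2.mul hf.conj)
    have b4 : Bd (fun p => f (Z ζ p) - f (Z ζ₀ p)) := b1.sub b2
    apply integral_mono b3.int.norm (b4.int.norm.const_mul _)
    intro p
    show ‖f (Z ζ p) * (starRingEnd ℂ) (f p) - f (Z ζ₀ p) * (starRingEnd ℂ) (f p)‖ ≤
      |C| * ‖f (Z ζ p) - f (Z ζ₀ p)‖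
    rw [← sub_mul, norm_mul, RCLike.norm_conj, mul_comm]
    exact mul_le_mul_of_nonneg_right ((hC p).trans (le_abs_self C)) (norm_nonneg _)
  have hχ : χ = fun ζ => (∫ p, f (Z ζ p) * (starRingEnd ℂ) (f p) ∂μ) / I := by
    funext ζ
    rw [eq_div_iff hI0, hI, ← integral_const_mul]
    apply integral_congr_ae
    filter_upwards [hev ζ] with p hp
    rw [hp, mul_assoc]
  rw [hχ]
  exact hφ.div_const I

/-- an eigenfunction with a non-trivial character has integral zero -/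
theorem int_zeroZ (hz : PA μ Z) {f : X → ℂ} (hf : Bd f) {c : ℂ} {ζ : ℂ}
    (h : (fun p => f (Z ζ p)) =ᵐ[μ] fun p => c * f p) (hc : c ≠ 1) : ∫ p, f p ∂μ = 0 := by
  have h1 : ∫ p, f p ∂μ = c * ∫ p, f p ∂μ := by
    calc ∫ p, f p ∂μ = ∫ p, f (Z ζ p) ∂μ := (comp_int (hz.mp ζ) hf.meas).symm
      _ = ∫ p, c * f p ∂μ := integral_congr_ae h
      _ = _ := integral_const_mul _ _
  have h2 : (1 - c) * ∫ p, f p ∂μ = 0 := by linear_combination h1
  rcases mul_eq_zero.1 h2 with h3 | h3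
  · exact absurd (sub_eq_zero.1 h3).symm hc
  · exact h3

end koop

section main

variable {X : Type} [MeasurableSpace X] {μ : Measure X} [IsProbabilityMeasure μ] {Z : ℂ → X → X}

theorem exp_pi_div {S : ℂ} (hS : S ≠ 0) :
    Complex.exp (Complex.I * (((S * ((Real.pi : ℂ) / S)).re : ℝ) : ℂ)) = -1 := by
  have h1 : S * ((Real.pi : ℂ) / S) = (Real.pi : ℂ) := by field_simp
  rw [h1, Complex.ofReal_re, mul_comm]
  exact Complex.exp_pi_mul_I

/-- the commutation relation for all powers -/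
theorem eqv_pw {T : X ≃ᵐ X} (hT : MeasurePreserving T μ μ) {ω : ℂ} (hω : ω ≠ 0)
    (hmp : ∀ ζ, MeasurePreserving (Z ζ) μ μ)
    (hev : ∀ ζ, Same μ (T ∘ Z ζ) (Z (ω * ζ) ∘ T)) (l : ℤ) (ζ : ℂ) :
    Same μ (pw T l ∘ Z ζ) (Z (ω ^ l * ζ) ∘ pw T l) := by
  have hT' : MeasurePreserving T.symm μ μ := hT.symm T
  have h1 : ∀ (S : X → X) (w : ℂ), MeasurePreserving S μ μ →
      (∀ ζ, Same μ (S ∘ Z ζ) (Z (w * ζ) ∘ S)) →
      ∀ (n : ℕ) (ζ : ℂ), Same μ (S^[n] ∘ Z ζ) (Z (w ^ n * ζ) ∘ S^[n]) := by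
    intro S w hS hSz n ζ
    induction n with
    | zero =>
      rw [pow_zero, one_mul]
      intro A hA; exact EventuallyEq.refl _ _
    | succ n ih =>
      have g1 : Same μ (S^[n + 1] ∘ Z ζ) (S ∘ (Z (w ^ n * ζ) ∘ S^[n])) := by
        rw [Function.iterate_succ']
        exact ih.left hS.measurable
      have g2 : Same μ ((S ∘ Z (w ^ n * ζ)) ∘ S^[n]) ((Z (w * (w ^ n * ζ)) ∘ S) ∘ S^[n]) :=
        (hSz _).right (hS.iterate n)
      have e : w * (w ^ n * ζ) = w ^ (n + 1) * ζ := by ring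
      rw [e] at g2
      have g3 := g1.trans g2
      rw [Function.iterate_succ'] at g3 ⊢
      exact g3
  have hsym : ∀ ζ, Same μ (T.symm ∘ Z ζ) (Z (ω⁻¹ * ζ) ∘ T.symm) := by
    intro ζ
    have g1 := ((hev (ω⁻¹ * ζ)).symm.left (R := T.symm) T.symm.measurable).right hT'
    have e0 : ω * (ω⁻¹ * ζ) = ζ := by field_simp
    rw [e0] at g1
    have e1 : (T.symm ∘ (Z ζ ∘ T)) ∘ T.symm = T.symm ∘ Z ζ := by
      funext p
      simp only [Function.comp_apply, T.apply_symm_apply]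
    have e2 : (T.symm ∘ (T ∘ Z (ω⁻¹ * ζ))) ∘ T.symm = Z (ω⁻¹ * ζ) ∘ T.symm := by
      funext p
      simp only [Function.comp_apply, T.symm_apply_apply]
    rw [e1, e2] at g1
    exact g1
  obtain ⟨n, rfl | rfl⟩ := l.eq_nat_or_neg
  · rw [pw_nat, zpow_natCast]; exact h1 T ω hT hev n ζ
  · rw [pw_neg, zpow_neg, zpow_natCast, ← inv_pow]; exact h1 T.symm ω⁻¹ hT' hsym n ζ

/-- invariance of the correlations of joint eigenfunctions -/
theorem C_char {T : X ≃ᵐ X} (hT : MeasurePreserving T μ μ) {ω : ℂ}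
    (hmp : ∀ ζ, MeasurePreserving (Z ζ) μ μ)
    (hev : ∀ (l : ℤ) (ζ : ℂ), Same μ (pw T l ∘ Z ζ) (Z (ω ^ l * ζ) ∘ pw T l)) {N : ℕ}
    {f : Fin N → X → ℂ} (hf : ∀ i, Bd (f i)) {χ : Fin N → ℂ → ℂ}
    (hχ : ∀ i ζ, (fun p => f i (Z ζ p)) =ᵐ[μ] fun p => χ i ζ * f i p) (n : Fin N → ℤ) (ζ : ℂ) :
    C μ (pw T) n f = (∏ i, χ i (ω ^ n i * ζ)) * C μ (pw T) n f := by
  have hP := act_pw hT
  have h1 : C μ (pw T) n f = ∫ p, ∏ i, f i (pw T (n i) (Z ζ p)) ∂μ := by
    unfold C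
    exact (comp_int (hmp ζ) (g := fun p => ∏ i, f i (pw T (n i) p)) (Bd.tuple hP hf n _).meas).symm
  have h2 : ∀ i, (fun p => f i (pw T (n i) (Z ζ p))) =ᵐ[μ]
      fun p => χ i (ω ^ n i * ζ) * f i (pw T (n i) p) := by
    intro i
    have g1 := (hev (n i) ζ).fn (hf i).meas
    have g2 := (hP.mp (n i)).quasiMeasurePreserving.ae_eq_comp (hχ i (ω ^ n i * ζ))
    exact g1.trans g2
  have h3 : ∀ᵐ p ∂μ, ∀ i, f i (pw T (n i) (Z ζ p)) = χ i (ω ^ n i * ζ) * f i (pw T (n i) p) :=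
    ae_all_iff.2 h2
  calc C μ (pw T) n f = ∫ p, ∏ i, f i (pw T (n i) (Z ζ p)) ∂μ := h1
    _ = ∫ p, (∏ i, χ i (ω ^ n i * ζ)) * ∏ i, f i (pw T (n i) p) ∂μ := by
        apply integral_congr_ae
        filter_upwards [h3] with p hp
        rw [prod_congr rfl fun i _ => hp i, prod_mul_distrib]
    _ = _ := by rw [integral_const_mul]; rfl

theorem main_mixZ (hRL : S_RL) (hJ : S_JOINT) (hCH : S_CHAR) (hA : S_ARI) {T : X ≃ᵐ X}
    (hT : MeasurePreserving T μ μ) {ω : ℂ} (hω : ‖ω‖ = 1) (hω' : ∀ n : ℕ, 1 ≤ n → ω ^ n ≠ 1)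
    (hZ : RF μ T Z ω) (hadd : ∀ ζ ζ', Same μ (Z (ζ + ζ')) (Z ζ ∘ Z ζ')) {x : ℝ → ℂ → X → X}
    (hx : ∀ ε ζ, MeasurePreserving (x ε ζ) μ μ) {r : ℤ → ℝ} (hr : Rate r)
    (hs : RShears μ T x Z ω r) (e : ℝ ≃ ℂ) :
    ∀ N, 1 ≤ N → MixInvS μ (pw T) (fun u => Z (e u)) N → MixAll μ (pw T) N := by
  have hz : PA μ Z := ⟨hZ.mp, hZ.zero, hadd, hZ.cont⟩
  have hP := act_pw hT
  have hω0 : ω ≠ 0 := by
    intro h; rw [h, norm_zero] at hω; exact zero_ne_one hω
  have hpw := eqv_pw hT hω0 hZ.mp hZ.eqv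
  intro N
  induction N using Nat.strong_induction_on with
  | _ N ih =>
  intro hN h
  rcases Nat.lt_or_ge N 2 with h2 | h2
  · have : N = 1 := by omega
    subst this
    exact mixAll_one hP
  obtain ⟨n, rfl⟩ : ∃ n, N = n + 2 := ⟨N - 2, by omega⟩
  have hN' : MixAll μ (pw T) (n + 1) := ih (n + 1) (by omega) (by omega) h.drop
  intro f hf
  rw [tendsto_iff_ultrafilter]
  intro U hU
  suffices hD : ∀ f : Fin (n + 2) → X → ℂ, (∀ i, f i ∈ {f : X → ℂ | Bd f}) → Def μ (pw T) U f = 0 by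
    have h3 := hD f hf
    unfold Def at h3
    rw [← sub_eq_zero.1 h3]
    exact tendsto_L hf
  have hML : ML (Def μ (pw T) U) := ml_def hP
  -- indicator functions of invariant sets
  have D0 : ∀ f : Fin (n + 2) → X → ℂ,
      (∀ i, f i ∈ {g : X → ℂ | ∃ A, InvS μ (fun u => Z (e u)) A ∧ g = ind A}) →
      Def μ (pw T) U f = 0 := by
    intro f hf
    choose A hA hfA using hf
    have hfe : f = fun i => ind (A i) := funext hfA
    have h3 := (h A hA).mono_left hU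
    unfold Def
    rw [sub_eq_zero, hfe]
    apply L_eq fun i => ind_bd (hA i).1
    simp_rw [C_ind hP fun i => (hA i).1, int_ind (hA _).1]
    have h4 := (Complex.continuous_ofReal.tendsto _).comp h3
    have e : ((∏ i, μ.real (A i) : ℝ) : ℂ) = ∏ i, ((μ.real (A i) : ℝ) : ℂ) := by push_cast; rfl
    rw [e] at h4
    exact h4
  -- invariant functions
  have D1 : ∀ f : Fin (n + 2) → X → ℂ, (∀ i, f i ∈ InvF μ (fun u => Z (e u))) →
      Def μ (pw T) U f = 0 := by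
    apply upgrade hML _ _ (by rintro f ⟨A, hA, rfl⟩; exact ind_bd hA.1) (fun f hf => hf.1) _ D0
    intro f hf η hη
    obtain ⟨g, hg, hgB, hfg⟩ := approx_inv hf (η / 2) (by positivity)
    refine ⟨g, hg, fun K hK1 F hF hFK j => ?_⟩
    have hh : Bd (f - g) := hf.1.sub hgB
    unfold Def
    refine (norm_sub_le _ _).trans ?_
    have h3 := L_update_le hP hF K hK1 hFK j hh (η / 2) hfg (U := U)
    have h4 := prod_update_le (μ := μ) K hK1 hFK j (f - g)
    have h5 : ‖∫ p, (f - g) p ∂μ‖ ≤ η / 2 := norm_int_le _ hfg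
    have h6 : K ^ (n + 2) ≤ K ^ (n + 2 + 1) := pow_le_pow_right₀ hK1 (by omega)
    have h7 : 0 ≤ K ^ (n + 2) := by positivity
    have h8 : K ^ (n + 2) * ‖∫ p, (f - g) p ∂μ‖ ≤ K ^ (n + 2) * (η / 2) := mul_le_mul_of_nonneg_left h5 h7
    nlinarith
  -- joint eigenfunctions
  have D2 : ∀ f : Fin (n + 2) → X → ℂ, (∀ i, f i ∈ JE μ Z) → Def μ (pw T) U f = 0 := by
    intro f hf
    have hfB : ∀ i, Bd (f i) := fun i => (hf i).1
    by_cases hzero : ∃ i, f i =ᵐ[μ] fun _ => 0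
    · obtain ⟨j, hj⟩ := hzero
      have hL : L μ (pw T) U f = 0 := by
        have h3 : L μ (pw T) U f = L μ (pw T) U (Function.update f j ((0 : ℂ) • f j)) := by
          apply L_congr_ae hP hfB (Bd.update hfB j ((hfB j).smul 0))
          intro i
          by_cases hij : i = j
          · subst hij
            rw [Function.update_self]
            filter_upwards [hj] with p hp
            rw [hp]; simp
          · rw [Function.update_of_ne hij]
        rw [h3, L_smul hfB j (hfB j) 0, zero_mul]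
      have hI : ∫ p, f j p ∂μ = 0 := by
        rw [integral_congr_ae hj]; simp
      unfold Def
      rw [hL, prod_eq_zero (mem_univ j) hI, sub_zero]
    push Not at hzero
    choose χ hχ1 hχ2 using fun i => (hf i).2
    have hchar : ∀ i, ∃ a : ℂ, ∀ ζ, χ i ζ = Complex.exp (Complex.I * (((a * ζ).re : ℝ) : ℂ)) :=
      fun i => hCH (χ i) (hχ1 i) (fun ζ ζ' => char_add hz (hfB i) (hzero i) (hχ2 i) ζ ζ')
        (char_cont hz (hfB i) (hzero i) (hχ2 i))
    choose a ha using hchar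
    by_cases hall : ∀ i, a i = 0
    · apply D1 f
      intro i
      refine ⟨hfB i, fun u => ?_⟩
      have h3 := hχ2 i (e u)
      rw [ha i, hall i] at h3
      simpa using h3
    push Not at hall
    obtain ⟨j, hj⟩ := hall
    have hj0 : ∫ p, f j p ∂μ = 0 := by
      refine int_zeroZ hz (hfB j) (hχ2 j ((Real.pi : ℂ) / a j)) ?_
      rw [ha j, exp_pi_div hj]
      norm_num
    have hL : L μ (pw T) U f = 0 := by
      obtain ⟨M, hM⟩ := hA ω hω hω' (n + 2) a ⟨j, hj⟩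
      apply L_eq hfB
      refine tendsto_const_nhds.congr' ?_
      have hfar : ∀ᶠ m in (U : Filter (Fin (n + 2) → ℤ)), ∀ i i', i ≠ i' → (M : ℤ) ≤ |m i - m i'| :=
        hU ⟨M, fun n hn => hn⟩
      filter_upwards [hfar] with m hm
      have hS := hM m hm
      set S : ℂ := ∑ i, a i * ω ^ (m i) with hSdef
      have h3 := C_char hT hZ.mp hpw hfB hχ2 m ((Real.pi : ℂ) / S)
      have h4 : ∏ i, χ i (ω ^ m i * ((Real.pi : ℂ) / S)) = -1 := by
        simp only [ha]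
        rw [← Complex.exp_sum, ← mul_sum, ← Complex.ofReal_sum, ← Complex.re_sum]
        have h5 : ∑ i, a i * (ω ^ m i * ((Real.pi : ℂ) / S)) = S * ((Real.pi : ℂ) / S) := by
          rw [hSdef, sum_mul]
          refine sum_congr rfl fun i _ => ?_
          ring
        rw [h5, exp_pi_div hS]
      rw [h4] at h3
      have h6 : (2 : ℂ) * C μ (pw T) m f = 0 := by linear_combination h3
      have h7 : C μ (pw T) m f = 0 := by
        rcases mul_eq_zero.1 h6 with h8 | h8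
        · norm_num at h8
        · exact h8
      exact h7.symm
    unfold Def
    rw [hL, prod_eq_zero (mem_univ j) hj0, sub_zero]
  -- all functions
  apply upgrade hML (JE μ Z) _ (fun f hf => hf.1) (fun f hf => hf) _ D2
  intro f hf η hη
  obtain ⟨g, hg, hgB, v, k, hdec, hk, hv⟩ := kronZ (μ := μ) (Z := Z) hf (η / 2) (by positivity)
  refine ⟨g, hg, fun K hK1 F hF hFK j => ?_⟩
  have hh : Bd (f - g) := hf.sub hgB
  obtain ⟨G, hG1, hG2, hG3⟩ := hRL X μ T hT Z ω hω hZ x hx r hr hs (n + 1) (by omega) hN' U hU j F hF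
  have hGn : ‖G‖ ≤ K ^ (n + 1 + 1) := hG2 K hK1 hFK
  have hK0 : 0 ≤ K ^ (n + 1 + 1) := by positivity
  have hL : ‖L μ (pw T) U (Function.update F j (f - g))‖ ≤ K ^ (n + 2) * (η / 2) := by
    have hvG := orthZ hJ hz v G hv hG3
    have hGv : inner ℂ G v = 0 := by rw [← inner_conj_symm, hvG, map_zero]
    rw [hG1 (f - g) hh, hdec, inner_add_right, hGv, zero_add]
    exact (norm_inner_le_norm _ _).trans (mul_le_mul hGn hk.le (norm_nonneg _) hK0)
  have hint : ‖∫ p, (f - g) p ∂μ‖ ≤ η / 2 := by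
    have h1 : ∫ p, (f - g) p ∂μ = inner ℂ (toL (Bd.const (X := X) 1)) (toL hh : Lp ℂ 2 μ) := by
      rw [inner_int]
      apply integral_congr_ae
      filter_upwards [toL_coe (μ := μ) hh, toL_coe (μ := μ) (Bd.const (X := X) 1)] with p g1 g2
      rw [g1, g2]; simp
    have h2 : inner ℂ (toL (Bd.const (X := X) 1)) v = 0 := by
      have e : inner ℂ v (toL (Bd.const (X := X) 1)) = 0 := hv _ (one_mem_JE (μ := μ) (Z := Z))
      rw [← inner_conj_symm, e, map_zero]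
    rw [h1, hdec, inner_add_right, h2, zero_add]
    refine (norm_inner_le_norm _ _).trans ?_
    calc _ ≤ 1 * (η / 2) := mul_le_mul norm_toL_one hk.le (norm_nonneg _) zero_le_one
      _ = η / 2 := one_mul _
  have h4 := prod_update_le (μ := μ) K hK1 hFK j (f - g)
  have h5 : K ^ (n + 2) * ‖∫ p, (f - g) p ∂μ‖ ≤ K ^ (n + 2) * (η / 2) :=
    mul_le_mul_of_nonneg_left hint (by positivity)
  have h6 : K ^ (n + 2) ≤ K ^ (n + 2 + 1) := pow_le_pow_right₀ hK1 (by omega)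
  unfold Def
  refine (norm_sub_le _ _).trans ?_
  nlinarith

end main

/-- **LY-RB** -/
theorem t_RB (hRL : S_RL) (hJ : S_JOINT) (hCH : S_CHAR) (hA : S_ARI) : S_RB := by
  intro X _ μ _ T hT Z ω hω hω' hZ hadd x hx r hr hs k h
  obtain ⟨e⟩ : Nonempty (ℝ ≃ ℂ) := Cardinal.eq.1 (by rw [Cardinal.mk_real, Cardinal.mk_complex])
  apply gaps_of_mixAll hT
  apply main_mixZ hRL hJ hCH hA hT hω hω' hZ hadd hx hr hs e (k + 1) (by omega)
  intro A hA
  refine spread_of_gaps hT h A fun i => ⟨(hA i).1, fun ζ => ?_⟩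
  have := (hA i).2 (e.symm ζ)
  simpa using this

end Pool.Agent.W637.LY
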